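import Pool.Agent.W2helper42.HL.Stm2
import Pool.Agent.W2helper42.HL.RMain

/-! Project HL, second part: pieces N_SC and N_EXT. -/

set_option autoImplicit false

namespace Pool.Agent.W2helper89.HL

open UpperHalfPlane H294ZP MvPolynomial Pool.Agent.W2helper42.HL

/-- fixing a non-special coordinate to a special value decreases `sd` -/
theorem sd_drop (hJ : JF) (hS : SF) {ι : Type} [Finite ι] {K : Subfield ℂ} (hK : Gd K)
    {b b' : ι → ℂ} (hb : Sp K b b') {u : ι} (hu : ¬ SpecialPoint (b u))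
    (hu' : SpecialPoint (b' u)) : sd b' + 1 ≤ sd b := by
  classical
  have hrel := hS.2.2.1 ι K hK b b' hb
  have hJR := hJ.2.1
  -- isogenies are preserved
  have hiso : ∀ i j, Isog (b i) (b j) → Isog (b' i) (b' j) := by
    rintro i j ⟨N, hN, hc⟩
    exact ⟨N, hN, hrel.1 i j N hN hc⟩
  have hsymm : ∀ x y, Isog x y → Isog y x := by
    rintro x y ⟨N, hN, hc⟩
    exact ⟨N, hN, hJR.2.1 N x y hN hc⟩
  obtain ⟨s, hs, h3, h4⟩ : sd b' ∈ {m : ℕ | ∃ s : Finset ι, s.card = m ∧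
      (∀ i ∈ s, ¬ SpecialPoint (b' i)) ∧ ∀ i ∈ s, ∀ j ∈ s, i ≠ j → ¬ Isog (b' i) (b' j)} := by
    apply Nat.sSup_mem
    · exact ⟨0, ∅, rfl, by simp, by simp⟩
    · exact sd_bdd b'
  have hus : u ∉ s := fun h => h3 u h hu'
  refine le_csSup (sd_bdd b) ⟨insert u s, by rw [Finset.card_insert_of_notMem hus, hs], ?_, ?_⟩
  · intro i hi
    rcases Finset.mem_insert.1 hi with rfl | hi
    · exact hu
    · intro h
      apply h3 i hi
      rw [hrel.2 i h]
      exact h
  · intro i hi j hj hij h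
    have h' := hiso i j h
    rcases Finset.mem_insert.1 hi with hiu | hi1
    · rcases Finset.mem_insert.1 hj with hju | hj1
      · exact hij (hiu.trans hju.symm)
      · rw [hiu] at h'
        exact h3 j hj1 (hJR.2.2.2.2.1 _ _ hu' h')
    · rcases Finset.mem_insert.1 hj with hju | hj1
      · rw [hju] at h'
        exact h3 i hi1 (hJR.2.2.2.2.1 _ _ hu' (hsymm _ _ h'))
      · exact h4 i hi1 j hj1 hij h'

theorem n_sc (hJ : JF) (hA : AF) (hS : SF) : N_SC := by
  intro ι _ C k u c hc hEC hE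
  obtain ⟨S₀, hS₀, hEC⟩ := hEC
  obtain ⟨S₁, hS₁, hE⟩ := hE
  refine ⟨S₀ ∪ S₁, hS₀.union hS₁, fun K hK hSK => ?_⟩
  have hCK := hEC K hK (Set.subset_union_left.trans hSK)
  have hfin := hE K hK (Set.subset_union_right.trans hSK)
  have hcK : c ∈ K := alg_mem hK (hJ.2.1.2.2.2.2.2 c hc)
  let f : MvPolynomial ι K := X u - MvPolynomial.C ⟨c, hcK⟩
  have hf : ∀ z : ι → ℂ, aeval z f = z u - c := by
    intro z
    simp only [f, map_sub, aeval_X, algHom_C]
    rfl
  refine (hfin.biUnion fun p _ => itm_finite [f] p).subset ?_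
  rintro p ⟨x, hx, rfl⟩
  have hDx : Dk K C k x := ⟨hx.1.1.1, hx.1.2⟩
  obtain ⟨b, hb, hbx⟩ := exists_mx hA hK hDx
  refine Set.mem_biUnion ⟨b, hb, rfl⟩ ?_
  by_cases hbu : b u = c
  · have h1 : Dk K {x | x ∈ C ∧ x u = c} k b := ⟨⟨hb.1.1, hbu⟩, hb.1.2⟩
    have h2 := hx.2 b h1 hbx
    have h3 : vI K x = vI K b := vI_eq h2 hbx
    have h6 : vI K b ⊔ Ideal.span {f} = vI K b := by
      rw [sup_eq_left, Ideal.span_le, Set.singleton_subset_iff]
      show aeval b f = 0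
      rw [hf, hbu, sub_self]
    have h7 : vI K b ∈ (vI K b ⊔ Ideal.span {f}).minimalPrimes := by
      rw [h6, Ideal.minimalPrimes_eq_subsingleton_self]
      rfl
    exact Set.mem_biUnion h7 h3
  · have h0 : aeval b f ≠ 0 := by
      rw [hf]
      exact sub_ne_zero.2 hbu
    have h0' : aeval x f = 0 := by
      rw [hf, hx.1.1.2, sub_self]
    obtain ⟨b', h1, h2, h3, h4, h5⟩ := hA.2.1 ι K hK b x f hbx h0 h0'
    have hb'u : b' u = c := by
      rw [hf] at h3
      exact sub_eq_zero.1 h3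
    have hns : ¬ SpecialPoint (b u) := by
      intro h
      have h6 := (hS.2.2.1 ι K hK b x hbx).2 u h
      rw [hx.1.1.2] at h6
      exact hbu h6.symm
    have h6 : sd b' + 1 ≤ sd b := sd_drop hJ hS hK h1 hns (by rw [hb'u]; exact hc)
    have h7 := hb.1.2
    have h8 : Dk K {x | x ∈ C ∧ x u = c} k b' := ⟨⟨hCK.mem h1 hb.1.1, hb'u⟩, by omega⟩
    have h9 := hx.2 b' h8 h2
    refine Set.mem_biUnion h5 ?_
    exact vI_eq h9 h2

/-- special coordinates do not count -/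
theorem sd_ext {ι ω : Type} [Finite ι] [Finite ω] (x : ι → ℂ) (w : ω → ℂ)
    (hw : ∀ s, SpecialPoint (w s)) : sd (Sum.elim x w) = sd x := by
  classical
  apply le_antisymm
  · refine csSup_le' ?_
    rintro m ⟨s, rfl, h3, h4⟩
    have hs : ∀ i ∈ s, ∃ j, Sum.inl j = i := by
      rintro (j | j) hi
      · exact ⟨j, rfl⟩
      · exact absurd (hw j) (h3 _ hi)
    refine le_csSup (sd_bdd x) ⟨s.preimage Sum.inl Sum.inl_injective.injOn, ?_, ?_, ?_⟩
    · rw [Finset.card_preimage]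
      congr 1
      rw [Finset.filter_eq_self]
      intro i hi
      obtain ⟨j, rfl⟩ := hs i hi
      exact ⟨j, rfl⟩
    · intro i hi
      exact h3 _ (Finset.mem_preimage.1 hi)
    · intro i hi j hj hij
      exact h4 _ (Finset.mem_preimage.1 hi) _ (Finset.mem_preimage.1 hj)
        (fun h => hij (Sum.inl_injective h))
  · refine csSup_le' ?_
    rintro m ⟨s, rfl, h3, h4⟩
    refine le_csSup (sd_bdd _) ⟨s.map ⟨Sum.inl, Sum.inl_injective⟩, ?_, ?_, ?_⟩
    · rw [Finset.card_map]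
    · intro i hi
      obtain ⟨j, hj, rfl⟩ := Finset.mem_map.1 hi
      exact h3 j hj
    · intro i hi j hj hij
      obtain ⟨i', hi', rfl⟩ := Finset.mem_map.1 hi
      obtain ⟨j', hj', rfl⟩ := Finset.mem_map.1 hj
      exact h4 i' hi' j' hj' (fun h => hij (by rw [h]))

theorem td_ext {ι ω : Type} {K : Subfield ℂ} (x : ι → ℂ) (w : ω → ℂ)
    (hw : ∀ s, w s ∈ K) : td K (Sum.elim x w) = td K x := by
  have h : Algebra.adjoin K (Set.range (Sum.elim x w)) = Algebra.adjoin K (Set.range x) := by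
    apply le_antisymm
    · rw [Algebra.adjoin_le_iff]
      rintro _ ⟨i | i, rfl⟩
      · exact Algebra.subset_adjoin ⟨i, rfl⟩
      · exact Subalgebra.algebraMap_mem _ (⟨w i, hw i⟩ : K)
    · apply Algebra.adjoin_mono
      rintro _ ⟨i, rfl⟩
      exact ⟨Sum.inl i, rfl⟩
  unfold td
  rw [h]

theorem sd_comp_inl {ι ω : Type} [Finite ι] [Finite ω] (y : ι ⊕ ω → ℂ) :
    sd (y ∘ Sum.inl) ≤ sd y := by
  refine csSup_le' ?_
  rintro m ⟨s, rfl, h3, h4⟩
  refine le_csSup (sd_bdd _) ⟨s.map ⟨Sum.inl, Sum.inl_injective⟩, ?_, ?_, ?_⟩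
  · rw [Finset.card_map]
  · intro i hi
    obtain ⟨j, hj, rfl⟩ := Finset.mem_map.1 hi
    exact h3 j hj
  · intro i hi j hj hij
    obtain ⟨i', hi', rfl⟩ := Finset.mem_map.1 hi
    obtain ⟨j', hj', rfl⟩ := Finset.mem_map.1 hj
    exact h4 i' hi' j' hj' (fun h => hij (by rw [h]))

theorem n_ext (hJ : JF) (_hA : AF) (_hS : SF) : N_EXT := by
  intro ι ω _ _ C k w hw hE
  obtain ⟨S, hSc, hE⟩ := hE
  refine ⟨S, hSc, fun K hK hSK => ?_⟩
  have hfin := hE K hK hSK
  have hwK : ∀ s, w s ∈ K := fun s => alg_mem hK (hJ.2.1.2.2.2.2.2 _ (hw s))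
  set C' : Set (ι ⊕ ω → ℂ) := {z | (fun s => z (Sum.inl s)) ∈ C ∧ ∀ s, z (Sum.inr s) = w s}
    with hC'
  refine (hfin.image fun p : Ideal (MvPolynomial (ι ⊕ ω) K) =>
      p.comap (rename Sum.inl : MvPolynomial ι K →ₐ[K] MvPolynomial (ι ⊕ ω) K)).subset ?_
  rintro p ⟨x, hx, rfl⟩
  -- substitution of the constants
  let φ : MvPolynomial (ι ⊕ ω) K →ₐ[K] MvPolynomial ι K :=
    aeval (Sum.elim X fun s => MvPolynomial.C ⟨w s, hwK s⟩)
  have hφ : ∀ (y : ι → ℂ) f, aeval y (φ f) = aeval (Sum.elim y w) f := by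
    intro y f
    have h : (aeval y : MvPolynomial ι K →ₐ[K] ℂ).comp φ = aeval (Sum.elim y w) := by
      apply MvPolynomial.algHom_ext
      rintro (i | i)
      · simp [φ]
      · simp only [φ, AlgHom.comp_apply, aeval_X, Sum.elim_inr, algHom_C]
        rfl
    exact DFunLike.congr_fun h f
  have hsp : ∀ y y' : ι → ℂ, Sp K y y' → Sp K (Sum.elim y w) (Sum.elim y' w) := by
    intro y y' h f hf
    rw [← hφ] at hf ⊢
    exact h _ hf
  have hmx : Mx K C' k (Sum.elim x w) := by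
    refine ⟨⟨⟨hx.1.1, fun s => rfl⟩, ?_⟩, ?_⟩
    · rw [sd_ext x w hw, td_ext x w hwK]
      exact hx.1.2
    · intro y hy hyx
      have hyw : y = Sum.elim (y ∘ Sum.inl) w := by
        funext s
        rcases s with s | s
        · rfl
        · exact hy.1.2 s
      have h1 : Sp K (y ∘ Sum.inl) x := hyx.comp Sum.inl
      have h2 : Dk K C k (y ∘ Sum.inl) := by
        refine ⟨hy.1.1, ?_⟩
        have h3 := hy.2
        rw [hyw, sd_ext _ w hw, td_ext _ w hwK] at h3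
        exact h3
      have h3 := hx.2 _ h2 h1
      rw [hyw]
      exact hsp _ _ h3
  refine ⟨vI K (Sum.elim x w), ⟨_, hmx, rfl⟩, ?_⟩
  show (vI K (Sum.elim x w)).comap _ = vI K x
  rw [← vI_comp]
  rfl

end Pool.Agent.W2helper89.HL
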