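import Pool.Agent.W2helper42.HL.Stm2
import Pool.Agent.H294ZP.TA1

/-! Project HL, second part: piece N_SP (`j(ρ) = 0`, `j(i) = 1728`). -/

set_option autoImplicit false

namespace Pool.Agent.W2helper89.HL

open UpperHalfPlane ModularForm Function MatrixGroups H294ZP Pool.Agent.W2helper42.HL

theorem E6_eqn (γ : SL(2, ℤ)) (τ : ℍ) :
    E₆ (γ • τ) = (((γ 1 0 : ℤ) : ℂ) * τ + ((γ 1 1 : ℤ) : ℂ)) ^ (6 : ℤ) * E₆ τ := by
  have h : E₆ (γ • τ) = (denom γ τ) ^ (6 : ℤ) * E₆ τ :=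
    SlashInvariantForm.slash_action_eqn' E₆ (MonoidHom.mem_range.mpr ⟨γ, rfl⟩) τ
  rw [ModularGroup.denom_apply] at h
  exact h

theorem E4_eqn (γ : SL(2, ℤ)) (τ : ℍ) :
    E₄ (γ • τ) = (((γ 1 0 : ℤ) : ℂ) * τ + ((γ 1 1 : ℤ) : ℂ)) ^ (4 : ℤ) * E₄ τ := by
  have h : E₄ (γ • τ) = (denom γ τ) ^ (4 : ℤ) * E₄ τ :=
    SlashInvariantForm.slash_action_eqn' E₄ (MonoidHom.mem_range.mpr ⟨γ, rfl⟩) τ
  rw [ModularGroup.denom_apply] at h
  exact h

/-- the matrix `(a b; c d)` -/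
def mt (a b c d : ℤ) (h : a * d - b * c = 1) : SL(2, ℤ) :=
  ⟨!![a, b; c, d], by rw [Matrix.det_fin_two_of]; exact h⟩

/-- a fixed point -/
theorem smul_fix {a b c d : ℤ} (h : a * d - b * c = 1) {τ : ℍ}
    (hw : (τ : ℂ) * (c * τ + d) = a * τ + b) : mt a b c d h • τ = τ := by
  set γ : SL(2, ℤ) := mt a b c d h with hγ
  have hne : (c : ℂ) * τ + d ≠ 0 := by
    have := denom_ne_zero (γ : GL (Fin 2) ℝ) τ
    rw [ModularGroup.denom_apply] at this
    simpa [γ, mt] using this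
  apply UpperHalfPlane.ext
  rw [coe_specialLinearGroup_apply]
  have h2 : ((τ : ℂ)) = (a * τ + b) / (c * τ + d) := by
    rw [eq_div_iff hne]; exact hw
  conv_rhs => rw [h2]
  simp [γ, mt]

theorem n_sp : N_SP := by
  constructor
  · -- `ρ`
    have him : 0 < (⟨-1 / 2, Real.sqrt 3 / 2⟩ : ℂ).im := by
      show 0 < Real.sqrt 3 / 2
      positivity
    set ρ : ℍ := ⟨⟨-1 / 2, Real.sqrt 3 / 2⟩, him⟩ with hρ
    have hcoe : (ρ : ℂ) = ⟨-1 / 2, Real.sqrt 3 / 2⟩ := rfl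
    have h3 : Real.sqrt 3 * Real.sqrt 3 = 3 := Real.mul_self_sqrt (by norm_num)
    have hρ2 : (ρ : ℂ) ^ 2 + ρ + 1 = 0 := by
      rw [hcoe]
      apply Complex.ext
      · simp [pow_two]
        nlinarith
      · simp [pow_two]
        ring
    refine ⟨ρ, ⟨1, 1, 1, one_ne_zero, by push_cast; rw [one_mul, one_mul]; exact hρ2⟩, ?_⟩
    have hfix := smul_fix (a := 0) (b := -1) (c := 1) (d := 1) (by norm_num) (τ := ρ)
      (by push_cast; linear_combination hρ2)
    have hE := E4_eqn (mt 0 (-1) 1 1 (by norm_num)) ρ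
    rw [hfix] at hE
    have hE' : E₄ ρ = ((ρ : ℂ) + 1) ^ 4 * E₄ ρ := by
      refine hE.trans ?_
      simp [mt]
    have h4 : E₄ ρ = 0 := by
      have h5 : ((ρ : ℂ) + 1) ^ 4 = - 1 - ρ := by
        linear_combination ((ρ : ℂ) ^ 2 + 3 * ρ + 2) * hρ2
      rw [h5] at hE'
      have h6 : (2 + (ρ : ℂ)) * E₄ ρ = 0 := by linear_combination hE'
      rcases mul_eq_zero.1 h6 with h | h
      · exfalso
        have := congrArg Complex.re h
        rw [hcoe] at this
        norm_num at this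
      · exact h
    unfold jj
    rw [h4]
    simp
  · -- `i`
    have hfix := smul_fix (a := 0) (b := -1) (c := 1) (d := 0) (by norm_num) (τ := UpperHalfPlane.I)
      (by push_cast; linear_combination Complex.I_mul_I)
    have hE := E6_eqn (mt 0 (-1) 1 0 (by norm_num)) UpperHalfPlane.I
    rw [hfix] at hE
    have hE' : E₆ UpperHalfPlane.I = (Complex.I) ^ 6 * E₆ UpperHalfPlane.I := by
      refine hE.trans ?_
      simp [mt]
    have h6 : E₆ UpperHalfPlane.I = 0 := by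
      have h5 : Complex.I ^ 6 = -1 := by
        rw [show (6 : ℕ) = 2 * 3 by norm_num, pow_mul, Complex.I_sq]
        norm_num
      rw [h5] at hE'
      have : (2 : ℂ) * E₆ UpperHalfPlane.I = 0 := by linear_combination hE'
      simpa using this
    have hΔ := ModularForm.discriminant_eq_E₄_cube_sub_E₆_sq UpperHalfPlane.I
    have hne := discriminant_ne_zero UpperHalfPlane.I
    refine ⟨UpperHalfPlane.I, ⟨1, 0, 1, one_ne_zero, by
      rw [UpperHalfPlane.coe_I]; push_cast; rw [Complex.I_sq]; ring⟩, ?_⟩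
    unfold jj
    rw [div_eq_iff hne, hΔ, h6]
    ring

end Pool.Agent.W2helper89.HL
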